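import Mathlib

/-!
# Latin bitrades both mates of which embed in abelian groups of exponential order only

Rows, columns and symbols are the elements of `Fin (n + 1)`; think of `0` as the zero and of `i ≥ 1` as `2 ^ (i - 1)`
modulo `2 ^ n`. The mate `W` consists of `(i, 0, i)`, `(0, i, i)` and, for `i ≠ 0`, of `(i, i, i + 1)` (the
vertices of the dissection of an equilateral triangle of side `2 ^ n` into triangles of sides
`2 ^ (n - 1), 2 ^ (n - 1), 2 ^ (n - 1)`, ..., `1, 1, 1, 1`), the mate `B` of `(i, 0, i + 1)`, `(0, i, i + 1)` and,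
for `i ≠ 0`, of `(i, i, i)` (the triangles). It is a spherical bitrade of size `3 n + 1`, both mates embed in the
cyclic group of order `2 ^ n`, and each of them embeds only in abelian groups with an element of order `2 ^ n`.
-/

set_option autoImplicit false

namespace Pool.Agent.Results.MP_afce15_co.ExponentialOrder

section defs

variable {R C S : Type} [DecidableEq R] [DecidableEq C] [DecidableEq S]

/-- `P` is a partial latin square: any two coordinates of a triple in `P` determine the third. -/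
def IsPartialLatinSquare (P : Finset (R × C × S)) : Prop :=
  (∀ r c s s', (r, c, s) ∈ P → (r, c, s') ∈ P → s = s') ∧
  (∀ r c c' s, (r, c, s) ∈ P → (r, c', s) ∈ P → c = c') ∧
  (∀ r r' c s, (r, c, s) ∈ P → (r', c, s) ∈ P → r = r')

/-- `(W, B)` is a latin bitrade. -/
def IsBitrade (W B : Finset (R × C × S)) : Prop :=
  IsPartialLatinSquare W ∧ IsPartialLatinSquare B ∧ W.Nonempty ∧ B.Nonempty ∧ Disjoint W B ∧
  (∀ r c, (∃ s, (r, c, s) ∈ W) ↔ (∃ s, (r, c, s) ∈ B)) ∧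
  (∀ r s, (∃ c, (r, c, s) ∈ W) ↔ (∃ c, (r, c, s) ∈ B)) ∧
  (∀ c s, (∃ r, (r, c, s) ∈ W) ↔ (∃ r, (r, c, s) ∈ B))

/-- Every element of `R` is a row of `P`, every element of `C` is a column of `P` and every element of `S` is a
symbol of `P`. -/
def UsesAll (P : Finset (R × C × S)) : Prop :=
  (∀ r, ∃ c s, (r, c, s) ∈ P) ∧ (∀ c, ∃ r s, (r, c, s) ∈ P) ∧ (∀ s, ∃ r c, (r, c, s) ∈ P)

/-- From a triple `w = (r, c, s)` of `W` to the triple `w' = (r, c', t)` of `W` with `(r, c, t)` in `B`. -/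
def RowStep (W B : Finset (R × C × S)) (w w' : R × C × S) : Prop :=
  w ∈ W ∧ w' ∈ W ∧ w.1 = w'.1 ∧ (w.1, w.2.1, w'.2.2) ∈ B

/-- From a triple `w = (r, c, s)` of `W` to the triple `w' = (t, c, s')` of `W` with `(t, c, s)` in `B`. -/
def ColStep (W B : Finset (R × C × S)) (w w' : R × C × S) : Prop :=
  w ∈ W ∧ w' ∈ W ∧ w.2.1 = w'.2.1 ∧ (w'.1, w.2.1, w.2.2) ∈ B

/-- From a triple `w = (r, c, s)` of `W` to the triple `w' = (r', t, s)` of `W` with `(r, t, s)` in `B`. -/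
def SymStep (W B : Finset (R × C × S)) (w w' : R × C × S) : Prop :=
  w ∈ W ∧ w' ∈ W ∧ w.2.2 = w'.2.2 ∧ (w.1, w'.2.1, w.2.2) ∈ B

/-- The bitrade is separated: each row, each column and each symbol is a single cycle. -/
def IsSeparated (W B : Finset (R × C × S)) : Prop :=
  (∀ w ∈ W, ∀ w' ∈ W, w.1 = w'.1 → Relation.ReflTransGen (RowStep W B) w w') ∧
  (∀ w ∈ W, ∀ w' ∈ W, w.2.1 = w'.2.1 → Relation.ReflTransGen (ColStep W B) w w') ∧
  (∀ w ∈ W, ∀ w' ∈ W, w.2.2 = w'.2.2 → Relation.ReflTransGen (SymStep W B) w w')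

/-- The bitrade is connected. -/
def IsConnected (W B : Finset (R × C × S)) : Prop :=
  ∀ w ∈ W, ∀ w' ∈ W, Relation.ReflTransGen
    (fun a b => RowStep W B a b ∨ ColStep W B a b ∨ SymStep W B a b) w w'

/-- The bitrade is spherical: connected, separated and of genus zero (Euler's formula for the triangulated surface
whose vertices are the rows, columns and symbols and whose faces are the triples of `W` and of `B`). -/
def IsSpherical [Fintype R] [Fintype C] [Fintype S] (W B : Finset (R × C × S)) : Prop :=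
  IsConnected W B ∧ IsSeparated W B ∧
    Fintype.card R + Fintype.card C + Fintype.card S = W.card + 2

/-- `P` embeds in the abelian group `G`. -/
def EmbedsIn (P : Finset (R × C × S)) (G : Type) [AddCommGroup G] : Prop :=
  ∃ (α : R → G) (β : C → G) (γ : S → G), Function.Injective α ∧ Function.Injective β ∧ Function.Injective γ ∧
    ∀ r c s, (r, c, s) ∈ P → α r + β c = γ s

/-- The orders of the finite abelian groups in which both mates embed. -/
def orders (W B : Finset (R × C × S)) : Set ℕ :=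
  {k | ∃ (G : Type) (_ : AddCommGroup G) (_ : Finite G), Nat.card G = k ∧ EmbedsIn W G ∧ EmbedsIn B G}

end defs

/-- the first mate -/
def tW (n : ℕ) : Finset (Fin (n + 1) × Fin (n + 1) × Fin (n + 1)) :=
  Finset.univ.filter (fun p => (p.2.1 = 0 ∧ p.2.2 = p.1) ∨ (p.1 = 0 ∧ p.2.2 = p.2.1) ∨
    (p.1 ≠ 0 ∧ p.1 = p.2.1 ∧ p.2.2 = p.1 + 1))

/-- the second mate -/
def tB (n : ℕ) : Finset (Fin (n + 1) × Fin (n + 1) × Fin (n + 1)) :=
  Finset.univ.filter (fun p => (p.2.1 = 0 ∧ p.2.2 = p.1 + 1) ∨ (p.1 = 0 ∧ p.2.2 = p.2.1 + 1) ∨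
    (p.1 ≠ 0 ∧ p.1 = p.2.1 ∧ p.2.2 = p.1))

variable {n : ℕ}

lemma mem_tW (r c s : Fin (n + 1)) : (r, c, s) ∈ tW n ↔
    (c = 0 ∧ s = r) ∨ (r = 0 ∧ s = c) ∨ (r ≠ 0 ∧ r = c ∧ s = r + 1) := by
  simp [tW]

lemma mem_tB (r c s : Fin (n + 1)) : (r, c, s) ∈ tB n ↔
    (c = 0 ∧ s = r + 1) ∨ (r = 0 ∧ s = c + 1) ∨ (r ≠ 0 ∧ r = c ∧ s = r) := by
  simp [tB]

lemma one_ne (hn : 1 ≤ n) : (1 : Fin (n + 1)) ≠ 0 := by
  obtain ⟨m, rfl⟩ : ∃ m, n = m + 1 := ⟨n - 1, by omega⟩
  exact one_ne_zero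

lemma add_one_ne (hn : 1 ≤ n) (i : Fin (n + 1)) : i + 1 ≠ i := by
  intro h
  exact one_ne hn (by simpa using h)

lemma pls_W (hn : 1 ≤ n) : IsPartialLatinSquare (tW n) := by
  have h2 := add_one_ne hn
  refine ⟨?_, ?_, ?_⟩
  · intro r c s s' h h'
    rw [mem_tW] at h h'
    rcases h with ⟨a, b⟩ | ⟨a, b⟩ | ⟨a, b, c1⟩ <;> rcases h' with ⟨a', b'⟩ | ⟨a', b'⟩ | ⟨a', b', c1'⟩
    · rw [b, b']
    · rw [b, b', a', a]
    · exact absurd (b'.trans a) a'
    · rw [b, b', a, a']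
    · rw [b, b']
    · exact absurd a a'
    · exact absurd (b.trans a') a
    · exact absurd a' a
    · rw [c1, c1']
  · intro r c c' s h h'
    rw [mem_tW] at h h'
    rcases h with ⟨a, b⟩ | ⟨a, b⟩ | ⟨a, b, c1⟩ <;> rcases h' with ⟨a', b'⟩ | ⟨a', b'⟩ | ⟨a', b', c1'⟩
    · rw [a, a']
    · rw [a, ← b', b, a']
    · exact absurd (c1'.symm.trans b) (h2 r)
    · rw [a', ← b, b', a]
    · rw [← b, b']
    · exact absurd a a'
    · exact absurd (c1.symm.trans b') (h2 r)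
    · exact absurd a' a
    · rw [← b, b']
  · intro r r' c s h h'
    rw [mem_tW] at h h'
    rcases h with ⟨a, b⟩ | ⟨a, b⟩ | ⟨a, b, c1⟩ <;> rcases h' with ⟨a', b'⟩ | ⟨a', b'⟩ | ⟨a', b', c1'⟩
    · rw [← b, b']
    · rw [← b, b', a, a']
    · exact absurd (b'.trans a) a'
    · rw [← b', b, a', a]
    · rw [a, a']
    · exact absurd (c1'.symm.trans (b.trans b'.symm)) (h2 r')
    · exact absurd (b.trans a') a
    · exact absurd (c1.symm.trans (b'.trans b.symm)) (h2 r)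
    · rw [b, b']

lemma pls_B (hn : 1 ≤ n) : IsPartialLatinSquare (tB n) := by
  have h2 := add_one_ne hn
  refine ⟨?_, ?_, ?_⟩
  · intro r c s s' h h'
    rw [mem_tB] at h h'
    rcases h with ⟨a, b⟩ | ⟨a, b⟩ | ⟨a, b, c1⟩ <;> rcases h' with ⟨a', b'⟩ | ⟨a', b'⟩ | ⟨a', b', c1'⟩
    · rw [b, b']
    · rw [b, b', a', a]
    · exact absurd (b'.trans a) a'
    · rw [b, b', a, a']
    · rw [b, b']
    · exact absurd a a'
    · exact absurd (b.trans a') a
    · exact absurd a' a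
    · rw [c1, c1']
  · intro r c c' s h h'
    rw [mem_tB] at h h'
    rcases h with ⟨a, b⟩ | ⟨a, b⟩ | ⟨a, b, c1⟩ <;> rcases h' with ⟨a', b'⟩ | ⟨a', b'⟩ | ⟨a', b', c1'⟩
    · rw [a, a']
    · have := b.symm.trans b'
      rw [a, ← add_right_cancel this, a']
    · exact absurd (b.symm.trans c1') (h2 r)
    · have := b'.symm.trans b
      rw [a', ← add_right_cancel this, a]
    · exact add_right_cancel (b.symm.trans b')
    · exact absurd a a'
    · exact absurd (b'.symm.trans c1) (h2 r)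
    · exact absurd a' a
    · rw [← b, b']
  · intro r r' c s h h'
    rw [mem_tB] at h h'
    rcases h with ⟨a, b⟩ | ⟨a, b⟩ | ⟨a, b, c1⟩ <;> rcases h' with ⟨a', b'⟩ | ⟨a', b'⟩ | ⟨a', b', c1'⟩
    · exact add_right_cancel (b.symm.trans b')
    · have := b.symm.trans b'
      rw [add_right_cancel this, a, a']
    · exact absurd (b'.trans a) a'
    · have := b'.symm.trans b
      rw [add_right_cancel this, a, a']
    · rw [a, a']
    · exact absurd (b.symm.trans (c1'.trans b')) (h2 c)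
    · exact absurd (b.trans a') a
    · exact absurd (b'.symm.trans (c1.trans b)) (h2 c)
    · rw [b, b']

lemma rows (hn : 1 ≤ n) : IsBitrade (tW n) (tB n) := by
  have h2 := add_one_ne hn
  refine ⟨pls_W hn, pls_B hn, ⟨(0, 0, 0), ?_⟩, ⟨(0, 0, 1), ?_⟩, ?_, ?_, ?_, ?_⟩
  · rw [mem_tW]; simp
  · rw [mem_tB]; simp
  · rw [Finset.disjoint_left]
    rintro ⟨r, c, s⟩ h h'
    rw [mem_tW] at h
    rw [mem_tB] at h'
    rcases h with ⟨a, b⟩ | ⟨a, b⟩ | ⟨a, b, c1⟩ <;> rcases h' with ⟨a', b'⟩ | ⟨a', b'⟩ | ⟨a', b', c1'⟩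
    · exact h2 r (b'.symm.trans b)
    · rw [b, a, a', zero_add] at b'
      exact one_ne hn b'.symm
    · exact absurd (b'.trans a) a'
    · rw [b, a, a', zero_add] at b'
      exact one_ne hn b'.symm
    · exact h2 c (b'.symm.trans b)
    · exact absurd a a'
    · exact absurd (b.trans a') a
    · exact absurd a' a
    · exact h2 r (c1.symm.trans c1')
  · intro r c
    constructor
    · rintro ⟨s, h⟩
      rw [mem_tW] at h
      rcases h with ⟨a, b⟩ | ⟨a, b⟩ | ⟨a, b, c1⟩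
      · exact ⟨r + 1, by rw [mem_tB]; exact Or.inl ⟨a, rfl⟩⟩
      · exact ⟨c + 1, by rw [mem_tB]; exact Or.inr (Or.inl ⟨a, rfl⟩)⟩
      · exact ⟨r, by rw [mem_tB]; exact Or.inr (Or.inr ⟨a, b, rfl⟩)⟩
    · rintro ⟨s, h⟩
      rw [mem_tB] at h
      rcases h with ⟨a, b⟩ | ⟨a, b⟩ | ⟨a, b, c1⟩
      · exact ⟨r, by rw [mem_tW]; exact Or.inl ⟨a, rfl⟩⟩
      · exact ⟨c, by rw [mem_tW]; exact Or.inr (Or.inl ⟨a, rfl⟩)⟩
      · exact ⟨r + 1, by rw [mem_tW]; exact Or.inr (Or.inr ⟨a, b, rfl⟩)⟩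
  · intro r s
    by_cases hr : r = 0
    · constructor
      · intro _
        exact ⟨s - 1, by rw [mem_tB]; exact Or.inr (Or.inl ⟨hr, by simp⟩)⟩
      · intro _
        exact ⟨s, by rw [mem_tW]; exact Or.inr (Or.inl ⟨hr, rfl⟩)⟩
    · constructor
      · rintro ⟨c, h⟩
        rw [mem_tW] at h
        rcases h with ⟨a, b⟩ | ⟨a, b⟩ | ⟨a, b, c1⟩
        · exact ⟨r, by rw [mem_tB]; exact Or.inr (Or.inr ⟨hr, rfl, b⟩)⟩
        · exact absurd a hr
        · exact ⟨0, by rw [mem_tB]; exact Or.inl ⟨rfl, c1⟩⟩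
      · rintro ⟨c, h⟩
        rw [mem_tB] at h
        rcases h with ⟨a, b⟩ | ⟨a, b⟩ | ⟨a, b, c1⟩
        · exact ⟨r, by rw [mem_tW]; exact Or.inr (Or.inr ⟨hr, rfl, b⟩)⟩
        · exact absurd a hr
        · exact ⟨0, by rw [mem_tW]; exact Or.inl ⟨rfl, c1⟩⟩
  · intro c s
    by_cases hc : c = 0
    · constructor
      · intro _
        exact ⟨s - 1, by rw [mem_tB]; exact Or.inl ⟨hc, by simp⟩⟩
      · intro _
        exact ⟨s, by rw [mem_tW]; exact Or.inl ⟨hc, rfl⟩⟩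
    · constructor
      · rintro ⟨r, h⟩
        rw [mem_tW] at h
        rcases h with ⟨a, b⟩ | ⟨a, b⟩ | ⟨a, b, c1⟩
        · exact absurd a hc
        · exact ⟨c, by rw [mem_tB]; exact Or.inr (Or.inr ⟨hc, rfl, b⟩)⟩
        · exact ⟨0, by rw [mem_tB]; exact Or.inr (Or.inl ⟨rfl, by rw [c1, b]⟩)⟩
      · rintro ⟨r, h⟩
        rw [mem_tB] at h
        rcases h with ⟨a, b⟩ | ⟨a, b⟩ | ⟨a, b, c1⟩
        · exact absurd a hc
        · exact ⟨c, by rw [mem_tW]; exact Or.inr (Or.inr ⟨hc, rfl, b⟩)⟩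
        · exact ⟨0, by rw [mem_tW]; exact Or.inr (Or.inl ⟨rfl, by rw [c1, b]⟩)⟩

lemma card_W (hn : 1 ≤ n) : (tW n).card = 3 * n + 1 := by
  have h2 := add_one_ne hn
  have e : tW n = (Finset.univ.image (fun i : Fin (n + 1) => (i, (0 : Fin (n + 1)), i)) ∪
      (Finset.univ.erase (0 : Fin (n + 1))).image (fun i : Fin (n + 1) => ((0 : Fin (n + 1)), i, i))) ∪
      (Finset.univ.erase (0 : Fin (n + 1))).image (fun i : Fin (n + 1) => (i, i, i + 1)) := by
    ext ⟨r, c, s⟩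
    rw [mem_tW]
    simp only [Finset.mem_union, Finset.mem_image, Finset.mem_univ, true_and, Finset.mem_erase, Prod.mk.injEq,
      and_true]
    constructor
    · rintro (⟨a, b⟩ | ⟨a, b⟩ | ⟨a, b, c1⟩)
      · exact Or.inl (Or.inl ⟨r, rfl, a.symm, b.symm⟩)
      · by_cases hc : c = 0
        · exact Or.inl (Or.inl ⟨r, rfl, hc.symm, by rw [b, hc, a]⟩)
        · exact Or.inl (Or.inr ⟨c, hc, a.symm, rfl, b.symm⟩)
      · exact Or.inr ⟨r, a, rfl, b, c1.symm⟩
    · rintro ((⟨x, a, b, c1⟩ | ⟨x, a, b, c1, d⟩) | ⟨x, a, b, c1, d⟩)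
      · exact Or.inl ⟨b.symm, by rw [← c1, a]⟩
      · exact Or.inr (Or.inl ⟨b.symm, by rw [← d, c1]⟩)
      · exact Or.inr (Or.inr ⟨by rw [← b]; exact a, by rw [← b, c1], by rw [← d, b]⟩)
  rw [e, Finset.card_union_of_disjoint, Finset.card_union_of_disjoint, Finset.card_image_of_injective,
    Finset.card_image_of_injective, Finset.card_image_of_injective, Finset.card_erase_of_mem (Finset.mem_univ _),
    Finset.card_univ, Fintype.card_fin]
  · omega
  · intro a b h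
    simpa using congrArg Prod.fst h
  · intro a b h
    simpa using congrArg (fun p => p.2.1) h
  · intro a b h
    simpa using congrArg Prod.fst h
  · rw [Finset.disjoint_left]
    rintro ⟨r, c, s⟩ h h'
    simp only [Finset.mem_image, Finset.mem_univ, true_and, Finset.mem_erase, Prod.mk.injEq, and_true] at h h'
    obtain ⟨x, a, b, c1⟩ := h
    obtain ⟨y, a', b', c1', d'⟩ := h'
    exact a' (c1'.trans b.symm)
  · rw [Finset.disjoint_left]
    rintro ⟨r, c, s⟩ h h'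
    simp only [Finset.mem_union, Finset.mem_image, Finset.mem_univ, true_and, Finset.mem_erase, Prod.mk.injEq,
      and_true] at h h'
    obtain ⟨y, a', b', c1', d'⟩ := h'
    rcases h with ⟨x, a, b, c1⟩ | ⟨x, a, b, c1, d⟩
    · exact a' (c1'.trans b.symm)
    · exact a' (b'.trans b.symm)

lemma uses_all : UsesAll (tW n) := by
  refine ⟨fun r => ⟨0, r, ?_⟩, fun c => ⟨0, c, ?_⟩, fun s => ⟨s, 0, ?_⟩⟩
  · rw [mem_tW]; simp
  · rw [mem_tW]; simp
  · rw [mem_tW]; simp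

lemma w1 (i : Fin (n + 1)) : (i, (0 : Fin (n + 1)), i) ∈ tW n := by rw [mem_tW]; simp
lemma w2 (i : Fin (n + 1)) : ((0 : Fin (n + 1)), i, i) ∈ tW n := by rw [mem_tW]; simp
lemma w3 (i : Fin (n + 1)) (h : i ≠ 0) : (i, i, i + 1) ∈ tW n := by rw [mem_tW]; simp [h]
lemma b1 (i : Fin (n + 1)) : (i, (0 : Fin (n + 1)), i + 1) ∈ tB n := by rw [mem_tB]; simp
lemma b2 (i : Fin (n + 1)) : ((0 : Fin (n + 1)), i, i + 1) ∈ tB n := by rw [mem_tB]; simp
lemma b3 (i : Fin (n + 1)) (h : i ≠ 0) : (i, i, i) ∈ tB n := by rw [mem_tB]; simp [h]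

/-- cyclic induction -/
lemma cyc {T : Type} (f : Fin (n + 1) → T) (R : T → T → Prop) (h : ∀ i, R (f i) (f (i + 1))) (i j : Fin (n + 1)) :
    Relation.ReflTransGen R (f i) (f j) := by
  have h0 : ∀ i, Relation.ReflTransGen R (f 0) (f i) := by
    intro i
    induction i using Fin.induction with
    | zero => exact Relation.ReflTransGen.refl
    | succ i ih =>
      refine ih.tail ?_
      have := h i.castSucc
      rwa [Fin.coeSucc_eq_succ] at this
  have h1 : ∀ i, Relation.ReflTransGen R (f i) (f 0) := by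
    intro i
    induction i using Fin.reverseInduction with
    | last =>
      have := h (Fin.last n)
      rw [Fin.last_add_one] at this
      exact Relation.ReflTransGen.single this
    | cast i ih =>
      refine Relation.ReflTransGen.head ?_ ih
      have := h i.castSucc
      rwa [Fin.coeSucc_eq_succ] at this
  exact (h1 i).trans (h0 j)

lemma cyc' {T : Type} (f : Fin (n + 1) → T) (R : T → T → Prop) (h : ∀ i, R (f (i + 1)) (f i)) (i j : Fin (n + 1)) :
    Relation.ReflTransGen R (f i) (f j) := by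
  have := cyc f (Function.swap R) h j i
  rw [Relation.reflTransGen_swap] at this
  exact this

lemma row0 (i j : Fin (n + 1)) :
    Relation.ReflTransGen (RowStep (tW n) (tB n)) ((0 : Fin (n + 1)), i, i) ((0 : Fin (n + 1)), j, j) :=
  cyc (fun i => ((0 : Fin (n + 1)), i, i)) _ (fun i => ⟨w2 i, w2 _, rfl, b2 i⟩) i j

lemma col0 (i j : Fin (n + 1)) :
    Relation.ReflTransGen (ColStep (tW n) (tB n)) (i, (0 : Fin (n + 1)), i) (j, (0 : Fin (n + 1)), j) :=
  cyc' (fun i => (i, (0 : Fin (n + 1)), i)) _ (fun i => ⟨w1 _, w1 _, rfl, b1 i⟩) i j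

lemma row1 (r : Fin (n + 1)) (hr : r ≠ 0) :
    RowStep (tW n) (tB n) (r, (0 : Fin (n + 1)), r) (r, r, r + 1) :=
  ⟨w1 r, w3 r hr, rfl, b1 r⟩

lemma row2 (r : Fin (n + 1)) (hr : r ≠ 0) :
    RowStep (tW n) (tB n) (r, r, r + 1) (r, (0 : Fin (n + 1)), r) :=
  ⟨w3 r hr, w1 r, rfl, b3 r hr⟩

lemma col1 (c : Fin (n + 1)) (hc : c ≠ 0) :
    ColStep (tW n) (tB n) ((0 : Fin (n + 1)), c, c) (c, c, c + 1) :=
  ⟨w2 c, w3 c hc, rfl, b3 c hc⟩

lemma col2 (c : Fin (n + 1)) (hc : c ≠ 0) :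
    ColStep (tW n) (tB n) (c, c, c + 1) ((0 : Fin (n + 1)), c, c) :=
  ⟨w3 c hc, w2 c, rfl, b2 c⟩

lemma sym1 (s : Fin (n + 1)) (hs : s ≠ 0) :
    SymStep (tW n) (tB n) (s, (0 : Fin (n + 1)), s) ((0 : Fin (n + 1)), s, s) :=
  ⟨w1 s, w2 s, rfl, b3 s hs⟩

lemma sym2 (s : Fin (n + 1)) (hs : s ≠ 0) :
    SymStep (tW n) (tB n) ((0 : Fin (n + 1)), s + 1, s + 1) (s, s, s + 1) :=
  ⟨w2 _, w3 s hs, rfl, b2 s⟩

lemma sym2' : SymStep (tW n) (tB n) ((0 : Fin (n + 1)), 0 + 1, 0 + 1) (0 + 1, (0 : Fin (n + 1)), 0 + 1) :=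
  ⟨w2 _, w1 _, rfl, b2 0⟩

lemma sym3 (s : Fin (n + 1)) (hs : s ≠ 0) :
    SymStep (tW n) (tB n) (s, s, s + 1) (s + 1, (0 : Fin (n + 1)), s + 1) :=
  ⟨w3 s hs, w1 _, rfl, b1 s⟩

lemma separated : IsSeparated (tW n) (tB n) := by
  refine ⟨?_, ?_, ?_⟩
  · rintro ⟨r, c, s⟩ h ⟨r', c', s'⟩ h' e
    simp only at e
    subst e
    rw [mem_tW] at h h'
    by_cases hr : r = 0
    · subst hr
      have hs : s = c := by
        rcases h with ⟨a, b⟩ | ⟨a, b⟩ | ⟨a, b, c1⟩
        · rw [a, b]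
        · exact b
        · exact absurd rfl a
      have hs' : s' = c' := by
        rcases h' with ⟨a, b⟩ | ⟨a, b⟩ | ⟨a, b, c1⟩
        · rw [a, b]
        · exact b
        · exact absurd rfl a
      subst hs hs'
      exact row0 _ _
    · have g : (c = 0 ∧ s = r) ∨ (c = r ∧ s = r + 1) := by
        rcases h with ⟨a, b⟩ | ⟨a, b⟩ | ⟨a, b, c1⟩
        · exact Or.inl ⟨a, b⟩
        · exact absurd a hr
        · exact Or.inr ⟨b.symm, c1⟩
      have g' : (c' = 0 ∧ s' = r) ∨ (c' = r ∧ s' = r + 1) := by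
        rcases h' with ⟨a, b⟩ | ⟨a, b⟩ | ⟨a, b, c1⟩
        · exact Or.inl ⟨a, b⟩
        · exact absurd a hr
        · exact Or.inr ⟨b.symm, c1⟩
      rcases g with ⟨a, b⟩ | ⟨a, b⟩ <;> rcases g' with ⟨a', b'⟩ | ⟨a', b'⟩ <;> rw [a, b, a', b']
      · exact Relation.ReflTransGen.single (row1 r hr)
      · exact Relation.ReflTransGen.single (row2 r hr)
  · rintro ⟨r, c, s⟩ h ⟨r', c', s'⟩ h' e
    simp only at e
    subst e
    rw [mem_tW] at h h'
    by_cases hc : c = 0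
    · subst hc
      have hs : s = r := by
        rcases h with ⟨a, b⟩ | ⟨a, b⟩ | ⟨a, b, c1⟩
        · exact b
        · rw [a, b]
        · exact absurd b a
      have hs' : s' = r' := by
        rcases h' with ⟨a, b⟩ | ⟨a, b⟩ | ⟨a, b, c1⟩
        · exact b
        · rw [a, b]
        · exact absurd b a
      subst hs hs'
      exact col0 _ _
    · have g : (r = 0 ∧ s = c) ∨ (r = c ∧ s = c + 1) := by
        rcases h with ⟨a, b⟩ | ⟨a, b⟩ | ⟨a, b, c1⟩
        · exact absurd a hc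
        · exact Or.inl ⟨a, b⟩
        · exact Or.inr ⟨b, by rw [c1, b]⟩
      have g' : (r' = 0 ∧ s' = c) ∨ (r' = c ∧ s' = c + 1) := by
        rcases h' with ⟨a, b⟩ | ⟨a, b⟩ | ⟨a, b, c1⟩
        · exact absurd a hc
        · exact Or.inl ⟨a, b⟩
        · exact Or.inr ⟨b, by rw [c1, b]⟩
      rcases g with ⟨a, b⟩ | ⟨a, b⟩ <;> rcases g' with ⟨a', b'⟩ | ⟨a', b'⟩ <;> rw [a, b, a', b']
      · exact Relation.ReflTransGen.single (col1 c hc)
      · exact Relation.ReflTransGen.single (col2 c hc)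
  · -- symbols: every triple with the symbol `s` reaches `(s, 0, s)` and is reached from it
    have to0 : ∀ r c s, (r, c, s) ∈ tW n →
        Relation.ReflTransGen (SymStep (tW n) (tB n)) (r, c, s) (s, (0 : Fin (n + 1)), s) := by
      intro r c s h
      rw [mem_tW] at h
      have hz : Relation.ReflTransGen (SymStep (tW n) (tB n)) ((0 : Fin (n + 1)), s, s) (s, (0 : Fin (n + 1)), s) := by
        obtain ⟨t, rfl⟩ : ∃ t, s = t + 1 := ⟨s - 1, by simp⟩
        by_cases ht : t = 0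
        · subst ht
          exact Relation.ReflTransGen.single sym2'
        · exact (Relation.ReflTransGen.single (sym2 t ht)).tail (sym3 t ht)
      rcases h with ⟨a, b⟩ | ⟨a, b⟩ | ⟨a, b, c1⟩
      · rw [a, b]
      · rw [a, ← b]
        exact hz
      · rw [← b, c1]
        exact Relation.ReflTransGen.single (sym3 r a)
    have from0 : ∀ r c s, (r, c, s) ∈ tW n →
        Relation.ReflTransGen (SymStep (tW n) (tB n)) (s, (0 : Fin (n + 1)), s) (r, c, s) := by
      intro r c s h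
      rw [mem_tW] at h
      have hz : Relation.ReflTransGen (SymStep (tW n) (tB n)) (s, (0 : Fin (n + 1)), s) ((0 : Fin (n + 1)), s, s) := by
        by_cases hs : s = 0
        · rw [hs]
        · exact Relation.ReflTransGen.single (sym1 s hs)
      rcases h with ⟨a, b⟩ | ⟨a, b⟩ | ⟨a, b, c1⟩
      · rw [a, b]
      · rw [a, ← b]
        exact hz
      · rw [← b, c1]
        rw [c1] at hz
        exact hz.tail (sym2 r a)
    rintro ⟨r, c, s⟩ h ⟨r', c', s'⟩ h' e
    simp only at e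
    subst e
    exact (to0 r c s h).trans (from0 r' c' s h')

lemma connected : IsConnected (tW n) (tB n) := by
  have hR : ∀ a b, Relation.ReflTransGen (RowStep (tW n) (tB n)) a b →
      Relation.ReflTransGen (fun a b => RowStep (tW n) (tB n) a b ∨ ColStep (tW n) (tB n) a b ∨
        SymStep (tW n) (tB n) a b) a b := fun a b h => Relation.ReflTransGen.mono (fun _ _ h => Or.inl h) _ _ h
  have hC : ∀ a b, Relation.ReflTransGen (ColStep (tW n) (tB n)) a b →
      Relation.ReflTransGen (fun a b => RowStep (tW n) (tB n) a b ∨ ColStep (tW n) (tB n) a b ∨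
        SymStep (tW n) (tB n) a b) a b := fun a b h => Relation.ReflTransGen.mono (fun _ _ h => Or.inr (Or.inl h)) _ _ h
  have to0 : ∀ w ∈ tW n, Relation.ReflTransGen (fun a b => RowStep (tW n) (tB n) a b ∨
      ColStep (tW n) (tB n) a b ∨ SymStep (tW n) (tB n) a b) w (0, 0, 0) := by
    rintro ⟨r, c, s⟩ h
    rw [mem_tW] at h
    rcases h with ⟨a, b⟩ | ⟨a, b⟩ | ⟨a, b, c1⟩
    · rw [a, b]
      exact hC _ _ (col0 r 0)
    · rw [a, b]
      exact hR _ _ (row0 c 0)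
    · rw [← b, c1]
      exact (hR _ _ (Relation.ReflTransGen.single (row2 r a))).trans (hC _ _ (col0 r 0))
  have from0 : ∀ w ∈ tW n, Relation.ReflTransGen (fun a b => RowStep (tW n) (tB n) a b ∨
      ColStep (tW n) (tB n) a b ∨ SymStep (tW n) (tB n) a b) (0, 0, 0) w := by
    rintro ⟨r, c, s⟩ h
    rw [mem_tW] at h
    rcases h with ⟨a, b⟩ | ⟨a, b⟩ | ⟨a, b, c1⟩
    · rw [a, b]
      exact hC _ _ (col0 0 r)
    · rw [a, b]
      exact hR _ _ (row0 0 c)
    · rw [← b, c1]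
      exact (hC _ _ (col0 0 r)).trans (hR _ _ (Relation.ReflTransGen.single (row1 r a)))
  intro w hw w' hw'
  exact (to0 w hw).trans (from0 w' hw')

lemma spherical (hn : 1 ≤ n) : IsSpherical (tW n) (tB n) := by
  refine ⟨connected, separated, ?_⟩
  rw [card_W hn]
  simp only [Fintype.card_fin]
  omega

/-- `i + 1` for an element that is not the last one -/
lemma mk_add_one (k : ℕ) (h : k + 1 < n + 1) :
    (⟨k, by omega⟩ : Fin (n + 1)) + 1 = ⟨k + 1, h⟩ := by
  have e : (⟨k, by omega⟩ : Fin (n + 1)) = Fin.castSucc (⟨k, by omega⟩ : Fin n) := rfl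
  rw [e, Fin.coeSucc_eq_succ]
  rfl

lemma last_add_one' : (⟨n, by omega⟩ : Fin (n + 1)) + 1 = 0 := Fin.last_add_one n

/-- a chain `x 1, x 2 = 2 x 1, ..., x n = 2 x (n - 1) ≠ 0, 2 x n = 0` starts with an element of order `2 ^ n` -/
lemma chain_order {G : Type} [AddCommGroup G] (hn : 1 ≤ n) (x : ℕ → G) (h : ∀ k, 1 ≤ k → k < n → x (k + 1) = x k + x k)
    (h0 : x n + x n = 0) (h1 : x n ≠ 0) : addOrderOf (x 1) = 2 ^ n := by
  have key : ∀ k, k < n → x (k + 1) = 2 ^ k • x 1 := by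
    intro k
    induction k with
    | zero => intro _; simp
    | succ k ih =>
      intro hk
      rw [h (k + 1) (by omega) hk, ih (by omega), ← add_smul, pow_succ, mul_two]
  obtain ⟨m, rfl⟩ : ∃ m, n = m + 1 := ⟨n - 1, by omega⟩
  apply addOrderOf_eq_prime_pow
  · rw [← key m (by omega)]
    exact h1
  · rw [pow_succ, mul_two, add_smul, ← key m (by omega)]
    exact h0

lemma order_W (hn : 1 ≤ n) {G : Type} [AddCommGroup G] (h : EmbedsIn (tW n) G) :
    ∃ g : G, addOrderOf g = 2 ^ n := by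
  obtain ⟨α, β, γ, -, -, hγ, h⟩ := h
  have e1 : ∀ i, α i + β 0 = γ i := fun i => h _ _ _ (w1 i)
  have e2 : ∀ i, α 0 + β i = γ i := fun i => h _ _ _ (w2 i)
  have e3 : ∀ i, i ≠ 0 → α i + β i = γ (i + 1) := fun i hi => h _ _ _ (w3 i hi)
  have e4 : ∀ i, i ≠ 0 → γ (i + 1) - γ 0 = (γ i - γ 0) + (γ i - γ 0) := by
    intro i hi
    have a1 := e1 i
    have a2 := e2 i
    have a3 := e3 i hi
    have a4 := e1 0
    rw [← a3, ← a4]
    nth_rewrite 1 [← a1]
    rw [← a2]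
    abel
  let x : ℕ → G := fun k => if hk : k < n + 1 then γ ⟨k, hk⟩ - γ 0 else 0
  have hx : ∀ k (hk : k < n + 1), x k = γ ⟨k, hk⟩ - γ 0 := fun k hk => dif_pos hk
  refine ⟨x 1, chain_order hn x ?_ ?_ ?_⟩
  · intro k hk hk'
    rw [hx (k + 1) (by omega), hx k (by omega), ← e4, mk_add_one k (by omega)]
    intro h0
    have := congrArg Fin.val h0
    simp at this
    omega
  · rw [hx n (by omega), ← e4, last_add_one', sub_self]
    intro h0
    have := congrArg Fin.val h0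
    simp at this
    omega
  · rw [hx n (by omega), sub_ne_zero]
    intro h0
    have := congrArg Fin.val (hγ h0)
    simp at this
    omega

lemma order_B (hn : 1 ≤ n) {G : Type} [AddCommGroup G] (h : EmbedsIn (tB n) G) :
    ∃ g : G, addOrderOf g = 2 ^ n := by
  obtain ⟨α, β, γ, hα, -, -, h⟩ := h
  have e1 : ∀ i, α i + β 0 = γ (i + 1) := fun i => h _ _ _ (b1 i)
  have e2 : ∀ i, α 0 + β i = γ (i + 1) := fun i => h _ _ _ (b2 i)
  have e3 : ∀ i, i ≠ 0 → α i + β i = γ i := fun i hi => h _ _ _ (b3 i hi)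
  -- `α (i + 1) - α 0` is half of `α i - α 0`
  have e4 : ∀ i, i + 1 ≠ 0 → α i - α 0 = (α (i + 1) - α 0) + (α (i + 1) - α 0) := by
    intro i hi
    have a1 := e1 i
    have a3 := e3 (i + 1) hi
    have a5 : β (i + 1) = α (i + 1) + β 0 - α 0 := by
      rw [e1 (i + 1), ← e2 (i + 1)]
      abel
    rw [← a3, a5] at a1
    have : α i = α (i + 1) + (α (i + 1) + β 0 - α 0) - β 0 := by
      rw [← a1]
      abel
    rw [this]
    abel
  let x : ℕ → G := fun k => if hk : k < n + 1 then α ⟨n - (k - 1), by omega⟩ - α 0 else 0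
  have hx : ∀ k (hk : k < n + 1), x k = α ⟨n - (k - 1), by omega⟩ - α 0 := fun k hk => dif_pos hk
  refine ⟨x 1, chain_order hn x ?_ ?_ ?_⟩
  · intro k hk hk'
    rw [hx (k + 1) (by omega), hx k (by omega)]
    have e : (⟨n - (k + 1 - 1), by omega⟩ : Fin (n + 1)) + 1 = ⟨n - (k - 1), by omega⟩ := by
      rw [mk_add_one (n - (k + 1 - 1)) (by omega)]
      apply Fin.ext
      show n - (k + 1 - 1) + 1 = n - (k - 1)
      omega
    rw [e4 _ (by
      rw [e]
      intro h0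
      have := congrArg Fin.val h0
      simp at this
      omega), e]
  · rw [hx n (by omega)]
    have e : (0 : Fin (n + 1)) + 1 = ⟨n - (n - 1), by omega⟩ := by
      have := mk_add_one (n := n) 0 (by omega)
      rw [show (⟨0, by omega⟩ : Fin (n + 1)) = 0 from rfl] at this
      rw [this]
      apply Fin.ext
      show 0 + 1 = n - (n - 1)
      omega
    have := e4 0 (by
      rw [zero_add]
      exact one_ne hn)
    rw [e, sub_self] at this
    exact this.symm
  · rw [hx n (by omega), sub_ne_zero]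
    intro h0
    have := congrArg Fin.val (hα h0)
    simp at this
    omega

/-- the elements `0, 1, 2, 4, ..., 2 ^ (n - 1)` of the cyclic group of order `2 ^ n` -/
def pw (n : ℕ) (i : Fin (n + 1)) : ℕ := if (i : ℕ) = 0 then 0 else 2 ^ ((i : ℕ) - 1)

/-- the elements `0, 2 ^ (n - 1), ..., 2, 1` of the cyclic group of order `2 ^ n` -/
def qw (n : ℕ) (i : Fin (n + 1)) : ℕ := if (i : ℕ) = 0 then 0 else 2 ^ (n - (i : ℕ))

lemma pw_lt (i : Fin (n + 1)) : pw n i < 2 ^ n := by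
  unfold pw
  split_ifs with h
  · positivity
  · exact Nat.pow_lt_pow_right (by norm_num) (by omega)

lemma qw_lt (i : Fin (n + 1)) : qw n i < 2 ^ n := by
  unfold qw
  split_ifs with h
  · positivity
  · exact Nat.pow_lt_pow_right (by norm_num) (by omega)

lemma pw_inj : Function.Injective (fun i : Fin (n + 1) => ((pw n i : ℕ) : ZMod (2 ^ n))) := by
  intro i j h
  simp only at h
  rw [ZMod.natCast_eq_natCast_iff'] at h
  rw [Nat.mod_eq_of_lt (pw_lt i), Nat.mod_eq_of_lt (pw_lt j)] at h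
  unfold pw at h
  apply Fin.ext
  split_ifs at h with a b b
  · omega
  · have : 0 < 2 ^ ((j : ℕ) - 1) := by positivity
    omega
  · have : 0 < 2 ^ ((i : ℕ) - 1) := by positivity
    omega
  · have := Nat.pow_right_injective (le_refl 2) h
    omega

lemma qw_inj : Function.Injective (fun i : Fin (n + 1) => ((qw n i : ℕ) : ZMod (2 ^ n))) := by
  intro i j h
  simp only at h
  rw [ZMod.natCast_eq_natCast_iff'] at h
  rw [Nat.mod_eq_of_lt (qw_lt i), Nat.mod_eq_of_lt (qw_lt j)] at h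
  unfold qw at h
  apply Fin.ext
  split_ifs at h with a b b
  · omega
  · have : 0 < 2 ^ (n - (j : ℕ)) := by positivity
    omega
  · have : 0 < 2 ^ (n - (i : ℕ)) := by positivity
    omega
  · have := Nat.pow_right_injective (le_refl 2) h
    omega

lemma pw_double (i : Fin (n + 1)) (hi : i ≠ 0) :
    ((pw n i : ℕ) : ZMod (2 ^ n)) + ((pw n i : ℕ) : ZMod (2 ^ n)) = ((pw n (i + 1) : ℕ) : ZMod (2 ^ n)) := by
  have hi0 : (i : ℕ) ≠ 0 := fun h => hi (Fin.ext h)
  by_cases hl : (i : ℕ) = n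
  · have e : i + 1 = 0 := by
      have : i = ⟨n, by omega⟩ := Fin.ext hl
      rw [this]
      exact last_add_one'
    rw [e]
    unfold pw
    rw [if_neg hi0, if_pos (by simp), ← Nat.cast_add, ← two_mul, ← pow_succ', hl,
      show n - 1 + 1 = n by omega, Nat.cast_zero]
    exact ZMod.natCast_self _
  · have e : ((i + 1 : Fin (n + 1)) : ℕ) = i + 1 := by
      have := mk_add_one (n := n) (i : ℕ) (by omega)
      exact congrArg Fin.val this
    unfold pw
    rw [if_neg hi0, if_neg (by omega), ← Nat.cast_add, ← two_mul, ← pow_succ', e,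
      show (i : ℕ) - 1 + 1 = i + 1 - 1 by omega]

lemma qw_double (i : Fin (n + 1)) (hi : i + 1 ≠ 0) :
    ((qw n (i + 1) : ℕ) : ZMod (2 ^ n)) + ((qw n (i + 1) : ℕ) : ZMod (2 ^ n)) = ((qw n i : ℕ) : ZMod (2 ^ n)) := by
  have hl : (i : ℕ) ≠ n := by
    intro h
    apply hi
    have : i = ⟨n, by omega⟩ := Fin.ext h
    rw [this]
    exact last_add_one'
  have e : ((i + 1 : Fin (n + 1)) : ℕ) = i + 1 := by
    have := mk_add_one (n := n) (i : ℕ) (by omega)
    exact congrArg Fin.val this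
  unfold qw
  rw [e, if_neg (by omega : ¬ ((i : ℕ) + 1 = 0)), ← Nat.cast_add, ← two_mul, ← pow_succ',
    show n - ((i : ℕ) + 1) + 1 = n - i by omega]
  by_cases h0 : (i : ℕ) = 0
  · rw [if_pos h0, h0, Nat.cast_zero, Nat.sub_zero]
    exact ZMod.natCast_self _
  · rw [if_neg h0]

lemma embeds_W : EmbedsIn (tW n) (ZMod (2 ^ n)) := by
  refine ⟨_, _, _, pw_inj, pw_inj, pw_inj, ?_⟩
  intro r c s h
  rw [mem_tW] at h
  have z : ((pw n 0 : ℕ) : ZMod (2 ^ n)) = 0 := by simp [pw]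
  rcases h with ⟨a, b⟩ | ⟨a, b⟩ | ⟨a, b, c1⟩
  · rw [a, b, z, add_zero]
  · rw [a, b, z, zero_add]
  · rw [← b, c1]
    exact pw_double r a

lemma embeds_B : EmbedsIn (tB n) (ZMod (2 ^ n)) := by
  refine ⟨_, _, fun i : Fin (n + 1) => ((qw n (i - 1) : ℕ) : ZMod (2 ^ n)), qw_inj, qw_inj, ?_, ?_⟩
  · intro i j h
    have := qw_inj h
    simpa using this
  intro r c s h
  rw [mem_tB] at h
  have z : ((qw n 0 : ℕ) : ZMod (2 ^ n)) = 0 := by simp [qw]
  rcases h with ⟨a, b⟩ | ⟨a, b⟩ | ⟨a, b, c1⟩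
  · rw [a, b, z, add_zero]
    simp only [add_sub_cancel_right]
  · rw [a, b, z, zero_add]
    simp only [add_sub_cancel_right]
  · rw [← b, c1]
    have := qw_double (r - 1) (by simpa using a)
    rwa [sub_add_cancel] at this

lemma mem_orders : 2 ^ n ∈ orders (tW n) (tB n) :=
  ⟨ZMod (2 ^ n), inferInstance, inferInstance, Nat.card_zmod _, embeds_W, embeds_B⟩

lemma le_of_mem_orders (hn : 1 ≤ n) {k : ℕ} (h : k ∈ orders (tW n) (tB n)) : 2 ^ n ≤ k := by
  obtain ⟨G, _, _, hk, hW, -⟩ := h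
  obtain ⟨g, hg⟩ := order_W hn hW
  rw [← hg, ← hk]
  exact Nat.le_of_dvd Nat.card_pos (addOrderOf_dvd_natCard g)

theorem result :
    ∃ c : ℝ, 1 < c ∧ ∀ n : ℕ, 1 ≤ n → ∃ W B : Finset (Fin (n + 1) × Fin (n + 1) × Fin (n + 1)),
      IsBitrade W B ∧ IsSpherical W B ∧ UsesAll W ∧ W.card = 3 * n + 1 ∧
      2 ^ n ∈ orders W B ∧ sInf (orders W B) = 2 ^ n ∧ c ^ W.card ≤ ((sInf (orders W B) : ℕ) : ℝ) ∧
      (∀ (G : Type) [AddCommGroup G], EmbedsIn W G → ∃ g : G, addOrderOf g = 2 ^ n) ∧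
      (∀ (G : Type) [AddCommGroup G], EmbedsIn B G → ∃ g : G, addOrderOf g = 2 ^ n) := by
  refine ⟨(2 : ℝ) ^ ((1 : ℝ) / 4), Real.one_lt_rpow (by norm_num) (by norm_num), ?_⟩
  intro n hn
  have hs : sInf (orders (tW n) (tB n)) = 2 ^ n :=
    le_antisymm (Nat.sInf_le mem_orders) (le_of_mem_orders hn (Nat.sInf_mem ⟨_, mem_orders⟩))
  refine ⟨tW n, tB n, rows hn, spherical hn, uses_all, card_W hn, mem_orders, hs, ?_,
    fun G _ h => order_W hn h, fun G _ h => order_B hn h⟩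
  rw [hs, card_W hn]
  have h1 : (1 : ℝ) ≤ (2 : ℝ) ^ ((1 : ℝ) / 4) := (Real.one_lt_rpow (by norm_num) (by norm_num)).le
  calc ((2 : ℝ) ^ ((1 : ℝ) / 4)) ^ (3 * n + 1) ≤ ((2 : ℝ) ^ ((1 : ℝ) / 4)) ^ (4 * n) :=
        pow_le_pow_right₀ h1 (by omega)
    _ = (((2 : ℝ) ^ ((1 : ℝ) / 4)) ^ 4) ^ n := by rw [pow_mul]
    _ = 2 ^ n := by
        rw [← Real.rpow_natCast ((2 : ℝ) ^ ((1 : ℝ) / 4)) 4, ← Real.rpow_mul (by norm_num)]
        norm_num
    _ = ((2 ^ n : ℕ) : ℝ) := by push_cast; rfl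

end Pool.Agent.Results.MP_afce15_co.ExponentialOrder
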